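import Pool.Agent.H211.AD.Stm3
import Pool.Graph.R_seed8.H713R3.ZA.TROOT

/-! AD211 RLIFT: lifting through a rational map (helper97) -/

set_option autoImplicit false

open Metric Set MeasureTheory Filter Topology Polynomial
open scoped OnePoint

namespace Pool.Agent.H97.AD211

open Pool.Agent.H211.AD Pool.Agent.H792R2.CE
open Pool.Agent.Helper114.Herman

/-- the attracted set is forward invariant -/
theorem att_forward {d : ℕ} {P Q : ℂ[X]} (hcont : Continuous (sph d P Q)) {x : OnePoint ℂ}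
    (h : Att d P Q x) : Att d P Q (sph d P Q x) := by
  obtain ⟨n, hn, z, hfin, hper, hder, ht⟩ := h
  obtain ⟨m, rfl⟩ : ∃ m, n = m + 1 := ⟨n - 1, by omega⟩
  have h1 : Att d P Q ((sph d P Q)^[m] (sph d P Q x)) := by
    refine ⟨m + 1, hn, z, hfin, hper, hder, ?_⟩
    have h2 := ht.comp (tendsto_add_atTop_nat 1)
    refine h2.congr fun k => ?_
    show (sph d P Q)^[(m + 1) * (k + 1)] x = _
    rw [← Function.iterate_succ_apply, ← Function.iterate_add_apply]
    congr 2
  have h3 : ∀ j, Att d P Q ((sph d P Q)^[j] (sph d P Q x)) → Att d P Q (sph d P Q x) := by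
    intro j
    induction j with
    | zero => exact fun h => h
    | succ j ih =>
      intro h
      rw [Function.iterate_succ_apply'] at h
      exact ih (C2_step hcont h)
  exact h3 m h1

theorem t_RLIFT : S_RLIFT := by
  intro P Q d hd hc hP hQ hinf
  have hcont : Continuous (sph d P Q) := B1_continuous hc hP hQ
  have hQ0 : Q ≠ 0 := by
    rintro rfl
    rw [natDegree_zero] at hQ
    omega
  have hlc : Q.coeff d ≠ 0 := by
    rw [← hQ]
    exact leadingCoeff_ne_zero.2 hQ0
  set v : ℂ := P.coeff d / Q.coeff d with hv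
  have hsv : sph d P Q ∞ = ((v : ℂ) : OnePoint ℂ) := by
    rw [sph_infty, pr_ne hlc]
  have hattv : Att d P Q ((v : ℂ) : OnePoint ℂ) := by
    rw [← hsv]
    exact att_forward hcont hinf
  have hK : IsCompact (RK d P Q) := natt_compact (by omega) hc hP hQ hinf
  have hvK : RK d P Q ⊆ {v}ᶜ := by
    intro z hz hzv
    have hzv' : z = v := hzv
    apply hz
    rw [hzv']
    exact hattv
  obtain ⟨δ₀, hδ₀, hsub⟩ := hK.exists_cthickening_subset_open isOpen_compl_singleton hvK
  -- the distance from `v`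
  obtain ⟨η, hη, hball⟩ : ∃ η > (0 : ℝ), ball v η ⊆ (cthickening δ₀ (RK d P Q))ᶜ := by
    have hcl : IsOpen ((cthickening δ₀ (RK d P Q))ᶜ) := isClosed_cthickening.isOpen_compl
    have hvm : v ∈ (cthickening δ₀ (RK d P Q))ᶜ := fun h => hsub h rfl
    exact Metric.isOpen_iff.1 hcl v hvm
  -- behaviour at infinity
  have hQinf : Tendsto (fun z : ℂ => ‖Q.eval z‖) (Bornology.cobounded ℂ) atTop := by
    refine Polynomial.tendsto_norm_atTop Q ?_ tendsto_norm_cobounded_atTop
    rw [← natDegree_pos_iff_degree_pos]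
    omega
  have hrf : Tendsto (fun z : ℂ => rf P Q z) (Bornology.cobounded ℂ) (𝓝 v) := by
    have h1 : Tendsto (fun z : ℂ => (z : OnePoint ℂ)) (Bornology.cobounded ℂ) (𝓝 ∞) := by
      rw [Metric.cobounded_eq_cocompact, ← coclosedCompact_eq_cocompact]
      exact OnePoint.tendsto_coe_infty
    have h2 : Tendsto (fun z : ℂ => sph d P Q (z : OnePoint ℂ)) (Bornology.cobounded ℂ)
        (𝓝 ((v : ℂ) : OnePoint ℂ)) := by
      rw [← hsv]
      exact (hcont.tendsto _).comp h1
    have h3 : (fun z : ℂ => ((rf P Q z : ℂ) : OnePoint ℂ)) =ᶠ[Bornology.cobounded ℂ]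
        fun z : ℂ => sph d P Q (z : OnePoint ℂ) := by
      filter_upwards [hQinf.eventually (eventually_gt_atTop 0)] with z hz
      rw [sph_coe_of_ne (norm_pos_iff.1 hz)]
    exact OnePoint.isOpenEmbedding_coe.isInducing.tendsto_nhds_iff.2 (h2.congr' h3.symm)
  refine ⟨δ₀, hδ₀, ?_⟩
  intro g y R hR hg hmaps hcrit z₀ hz₀ hz₀g
  -- zeros of `P - w Q`
  have hzero : ∀ z w : ℂ, P.eval z - w * Q.eval z = 0 → Q.eval z ≠ 0 ∧ rf P Q z = w := by
    intro z w h0
    have hQz : Q.eval z ≠ 0 := by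
      intro hq
      rw [hq, mul_zero, sub_zero] at h0
      obtain ⟨a, b, hab⟩ := hc
      have := congrArg (Polynomial.eval z) hab
      simp [h0, hq] at this
    refine ⟨hQz, ?_⟩
    unfold rf
    rw [div_eq_iff hQz]
    exact sub_eq_zero.1 h0
  have key := Pool.Agent.H713R3.ZA.root_holds ℂ (ball y R)
    (fun s z => P.eval z - g s * Q.eval z) isOpen_ball (convex_ball y R) ?_ ?_ ?_ y
    (mem_ball_self hR) z₀ ?_
  · obtain ⟨Z, h1, h2, h3, -⟩ := key
    exact ⟨Z, h1, h2, fun x hx => hzero _ _ (h3 x hx)⟩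
  · have hpol : ∀ A : ℂ[X], ContDiff ℂ 1 (fun p : ℂ × ℂ => A.eval p.2) := fun A => by
      have h1 : ContDiff ℂ 1 (fun z : ℂ => A.eval z) := A.differentiable.contDiff
      exact h1.comp contDiff_snd
    have hg1 : ContDiffOn ℂ 1 (fun p : ℂ × ℂ => g p.1) (ball y R ×ˢ univ) :=
      (hg.contDiffOn isOpen_ball).comp contDiff_fst.contDiffOn fun p hp => hp.1
    exact (hpol P).contDiffOn.sub (hg1.mul (hpol Q).contDiffOn)
  · intro K' hK' _ M
    have h1 : ∀ᶠ z in Bornology.cobounded ℂ, ‖rf P Q z - v‖ < η / 2 ∧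
        2 * (|M| + 1) / η < ‖Q.eval z‖ := by
      refine Filter.Eventually.and ?_ (hQinf.eventually (eventually_gt_atTop _))
      have := (Metric.tendsto_nhds.1 hrf) (η / 2) (by positivity)
      filter_upwards [this] with z hz
      rwa [dist_eq_norm] at hz
    rw [← comap_norm_atTop, eventually_comap] at h1
    obtain ⟨B, hB⟩ := eventually_atTop.1 h1
    refine ⟨B, fun s hs z hz => ?_⟩
    by_contra hlt
    rw [not_le] at hlt
    obtain ⟨h2, h3⟩ := hB ‖z‖ hlt.le z rfl
    have hQp : 0 < ‖Q.eval z‖ := lt_of_le_of_lt (by positivity) h3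
    have hQz : Q.eval z ≠ 0 := norm_pos_iff.1 hQp
    have h4 : η ≤ ‖v - g s‖ := by
      by_contra hcon
      rw [not_le] at hcon
      have h5 : g s ∈ ball v η := by
        rw [mem_ball, dist_eq_norm, norm_sub_rev]; exact hcon
      exact hball h5 (hmaps (hK' hs))
    have h5 : P.eval z - g s * Q.eval z = Q.eval z * ((rf P Q z - v) + (v - g s)) := by
      unfold rf
      field_simp
      ring
    have h6 : η / 2 ≤ ‖(rf P Q z - v) + (v - g s)‖ := by
      have := norm_sub_le ((rf P Q z - v) + (v - g s)) (rf P Q z - v)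
      rw [add_sub_cancel_left] at this
      linarith
    have hz' : ‖P.eval z - g s * Q.eval z‖ ≤ M := hz
    rw [h5, norm_mul] at hz'
    have h7 : ‖Q.eval z‖ * (η / 2) ≤ M := (mul_le_mul_of_nonneg_left h6 hQp.le).trans hz'
    rw [div_lt_iff₀ hη] at h3
    have h8 := le_abs_self M
    nlinarith
  · intro s hs z hz
    obtain ⟨hQz, hrz⟩ := hzero z (g s) hz
    have hd1 : HasDerivAt (fun z => P.eval z - g s * Q.eval z)
        ((derivative P).eval z - g s * (derivative Q).eval z) z :=
      (P.hasDerivAt z).sub ((Q.hasDerivAt z).const_mul (g s))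
    have hd2 : HasDerivAt (rf P Q) (((derivative P).eval z * Q.eval z -
        P.eval z * (derivative Q).eval z) / Q.eval z ^ 2) z :=
      (P.hasDerivAt z).div (Q.hasDerivAt z) hQz
    have hne := hcrit z hQz ⟨s, hs, hrz.symm⟩
    rw [hd2.deriv] at hne
    show deriv (fun z => P.eval z - g s * Q.eval z) z ≠ 0
    rw [hd1.deriv]
    intro h0
    apply hne
    have hPg : P.eval z = g s * Q.eval z := sub_eq_zero.1 hz
    have h1 : (derivative P).eval z = g s * (derivative Q).eval z := sub_eq_zero.1 h0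
    rw [hPg, h1]
    rw [div_eq_zero_iff]
    left
    ring
  · show P.eval z₀ - g y * Q.eval z₀ = 0
    rw [← hz₀g]
    have hQz : Q.eval z₀ ≠ 0 := hz₀
    unfold rf
    rw [div_mul_cancel₀ _ hQz, sub_self]

end Pool.Agent.H97.AD211
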